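import Mathlib

set_option autoImplicit false

namespace Pool.Agent.Work.MP_5df1f6_co

open Finset

open Classical in
/-- The number of edges of `G` with both ends in `s`. -/
noncomputable def edgesInside {n : ℕ} (G : SimpleGraph (Fin n)) (s : Finset (Fin n)) : ℕ :=
  #{e ∈ G.edgeFinset | ∀ v ∈ e, v ∈ s}

open Classical in
/-- The number `f(G)` of frustrated triples: three-element vertex sets inducing an odd number of
edges. -/
noncomputable def f {n : ℕ} (G : SimpleGraph (Fin n)) : ℕ :=
  #{s ∈ (univ : Finset (Fin n)).powersetCard 3 | Odd (edgesInside G s)}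

open Classical in
/-- `S_t`: the values of `f` on the `n`-vertex graphs with exactly `t` edges. -/
def S (n t : ℕ) : Set ℤ :=
  {x | ∃ G : SimpleGraph (Fin n), #G.edgeFinset = t ∧ (f G : ℤ) = x}

/-- `a_t = t (n - t - 1)`. -/
def a (n t : ℕ) : ℤ := t * (n - t - 1)

/-- `b_t = t (n - 2)`. -/
def b (n t : ℕ) : ℤ := t * (n - 2)

/-- `t_max`, the largest `t` with `t (t + 1) < n - 2` (for `n ≥ 3`). -/
def tmax (n : ℕ) : ℕ := Nat.findGreatest (fun t => t * (t + 1) < n - 2) n

end Pool.Agent.Work.MP_5df1f6_co
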