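import Mathlib
import Pool.Agent.Work.MP_5df1f6_co.Defs

set_option autoImplicit false

namespace Pool.Agent.Work.MP_5df1f6_co

open Finset Classical

variable {n : ℕ}

/-- `G'` is `G` with the edge `xy` added. -/
structure AddEdge (G G' : SimpleGraph (Fin n)) (x y : Fin n) : Prop where
  ne : x ≠ y
  nadj : ¬ G.Adj x y
  adj : ∀ p q, G'.Adj p q ↔ G.Adj p q ∨ (p = x ∧ q = y) ∨ (p = y ∧ q = x)

/-- Number of vertices adjacent to exactly one of `x`, `y`. -/
noncomputable def D (G : SimpleGraph (Fin n)) (x y : Fin n) : ℕ :=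
  #{w | Xor (G.Adj x w) (G.Adj y w)}

theorem AddEdge.edgeFinset_eq {G G' : SimpleGraph (Fin n)} {x y : Fin n} (h : AddEdge G G' x y) :
    G'.edgeFinset = insert s(x, y) G.edgeFinset := by
  ext e
  induction e using Sym2.ind with
  | _ p q =>
    simp only [SimpleGraph.mem_edgeFinset, SimpleGraph.mem_edgeSet, mem_insert, h.adj, Sym2.eq_iff]
    tauto

theorem AddEdge.notMem {G G' : SimpleGraph (Fin n)} {x y : Fin n} (h : AddEdge G G' x y) :
    s(x, y) ∉ G.edgeFinset := by
  simpa using h.nadj

theorem AddEdge.card {G G' : SimpleGraph (Fin n)} {x y : Fin n} (h : AddEdge G G' x y) :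
    #G'.edgeFinset = #G.edgeFinset + 1 := by
  rw [h.edgeFinset_eq, card_insert_of_notMem h.notMem]

theorem AddEdge.inside {G G' : SimpleGraph (Fin n)} {x y : Fin n} (h : AddEdge G G' x y)
    (s : Finset (Fin n)) :
    edgesInside G' s = edgesInside G s + if x ∈ s ∧ y ∈ s then 1 else 0 := by
  unfold edgesInside
  rw [h.edgeFinset_eq, filter_insert]
  have hm : (∀ v ∈ s(x, y), v ∈ s) ↔ x ∈ s ∧ y ∈ s := by simp
  by_cases hs : x ∈ s ∧ y ∈ s
  · rw [if_pos (hm.2 hs), if_pos hs, card_insert_of_notMem]
    intro hmem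
    exact h.notMem (mem_of_mem_filter _ hmem)
  · rw [if_neg (fun hh => hs (hm.1 hh)), if_neg hs, add_zero]

theorem odd_inside {G : SimpleGraph (Fin n)} {x y w : Fin n} (hxy : x ≠ y) (hx : w ≠ x)
    (hy : w ≠ y) (hn : ¬ G.Adj x y) :
    Odd (edgesInside G {x, y, w}) ↔ Xor (G.Adj x w) (G.Adj y w) := by
  have h : edgesInside G {x, y, w} = (if G.Adj x w then 1 else 0) + (if G.Adj y w then 1 else 0) := by
    unfold edgesInside
    have : (G.edgeFinset.filter fun e => ∀ v ∈ e, v ∈ ({x, y, w} : Finset (Fin n))) =
        (({s(x, w), s(y, w)} : Finset (Sym2 (Fin n))).filter fun e => e ∈ G.edgeSet) := by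
      ext e
      induction e using Sym2.ind with
      | _ p q =>
        simp only [mem_filter, SimpleGraph.mem_edgeFinset, SimpleGraph.mem_edgeSet,
          mem_insert, mem_singleton, Sym2.mem_iff, Sym2.eq_iff]
        constructor
        · rintro ⟨hadj, hall⟩
          have hp := hall p (Or.inl rfl)
          have hq := hall q (Or.inr rfl)
          refine ⟨?_, hadj⟩
          rcases hp with rfl | rfl | rfl <;> rcases hq with rfl | rfl | rfl
          · exact absurd hadj (G.irrefl)
          · exact absurd hadj hn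
          · simp
          · exact absurd hadj.symm hn
          · exact absurd hadj (G.irrefl)
          · simp
          · simp
          · simp
          · exact absurd hadj (G.irrefl)
        · rintro ⟨hor, hadj⟩
          refine ⟨hadj, ?_⟩
          rintro v (rfl | rfl) <;> rcases hor with (⟨rfl, rfl⟩ | ⟨rfl, rfl⟩) | (⟨rfl, rfl⟩ | ⟨rfl, rfl⟩) <;>
            simp
    rw [this, filter_insert, filter_singleton]
    simp only [SimpleGraph.mem_edgeSet]
    have hne : s(x, w) ≠ s(y, w) := by
      intro hh
      rw [Sym2.eq_iff] at hh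
      rcases hh with ⟨h1, _⟩ | ⟨h1, h2⟩
      · exact hxy h1
      · exact hx h1.symm
    by_cases h1 : G.Adj x w <;> by_cases h2 : G.Adj y w <;> simp [h1, h2, hne]
  rw [h]
  by_cases h1 : G.Adj x w <;> by_cases h2 : G.Adj y w <;> simp [h1, h2, Xor, parity_simps]

/-- Vertices other than `x`, `y`. -/
noncomputable def W (x y : Fin n) : Finset (Fin n) := {w | w ≠ x ∧ w ≠ y}

theorem card_W {x y : Fin n} (hxy : x ≠ y) : #(W x y) + 2 = n := by
  have h : W x y = univ \ {x, y} := by
    ext w; simp [W]
  rw [h, card_sdiff_of_subset (subset_univ _), card_univ, Fintype.card_fin, card_pair hxy]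
  have : 2 ≤ n := by
    have := card_le_univ ({x, y} : Finset (Fin n))
    rwa [card_pair hxy, Fintype.card_fin] at this
  omega

theorem triple_inj {x y : Fin n} :
    Set.InjOn (fun w => ({x, y, w} : Finset (Fin n))) (W x y : Set (Fin n)) := by
  intro w hw w' hw' h
  simp only [W, coe_filter, mem_univ, true_and, Set.mem_setOf_eq] at hw hw'
  have hmem : w ∈ ({x, y, w'} : Finset (Fin n)) := by
    have : w ∈ ({x, y, w} : Finset (Fin n)) := by simp
    simpa [← h] using this
  simp only [mem_insert, mem_singleton] at hmem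
  rcases hmem with h | h | h
  · exact absurd h hw.1
  · exact absurd h hw.2
  · exact h

theorem triples_eq {x y : Fin n} (hxy : x ≠ y) :
    ((univ : Finset (Fin n)).powersetCard 3).filter (fun s => x ∈ s ∧ y ∈ s) =
      (W x y).image (fun w => ({x, y, w} : Finset (Fin n))) := by
  ext s
  simp only [mem_filter, mem_powersetCard, subset_univ, true_and, mem_image]
  constructor
  · rintro ⟨hs, hx, hy⟩
    have hsub : ({x, y} : Finset (Fin n)) ⊆ s := by
      intro z hz
      simp only [mem_insert, mem_singleton] at hz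
      rcases hz with rfl | rfl <;> assumption
    have hc : #(s \ {x, y}) = 1 := by
      rw [card_sdiff_of_subset hsub, hs, card_pair hxy]
    obtain ⟨w, hw⟩ := card_eq_one.1 hc
    have hw' : w ∈ s \ {x, y} := by rw [hw]; simp
    simp only [mem_sdiff, mem_insert, mem_singleton, not_or] at hw'
    refine ⟨w, by simp [W, hw'.2.1, hw'.2.2], ?_⟩
    have : s = {x, y} ∪ (s \ {x, y}) := (union_sdiff_of_subset hsub).symm
    rw [this, hw]
    ext z
    simp only [mem_insert, mem_singleton, mem_union]
    tauto
  · rintro ⟨w, hw, rfl⟩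
    simp only [W, mem_filter, mem_univ, true_and] at hw
    refine ⟨?_, by simp, by simp⟩
    rw [card_insert_of_notMem, card_pair (Ne.symm hw.2)]
    simp only [mem_insert, mem_singleton, not_or]
    exact ⟨hxy, Ne.symm hw.1⟩

theorem card_odd_triples {G : SimpleGraph (Fin n)} {x y : Fin n} (hxy : x ≠ y)
    (hn : ¬ G.Adj x y) :
    #((((univ : Finset (Fin n)).powersetCard 3).filter (fun s => x ∈ s ∧ y ∈ s)).filter
      (fun s => Odd (edgesInside G s))) = D G x y := by
  rw [triples_eq hxy, filter_image, card_image_of_injOn]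
  · unfold D
    congr 1
    ext w
    simp only [W, mem_filter, mem_univ, true_and]
    constructor
    · rintro ⟨⟨h1, h2⟩, h3⟩
      exact (odd_inside hxy h1 h2 hn).1 h3
    · intro h
      have h1 : w ≠ x := by
        rintro rfl
        rcases h with ⟨h, _⟩ | ⟨h, _⟩
        · exact G.irrefl h
        · exact hn h.symm
      have h2 : w ≠ y := by
        rintro rfl
        rcases h with ⟨h, _⟩ | ⟨h, _⟩
        · exact hn h
        · exact G.irrefl h
      exact ⟨⟨h1, h2⟩, (odd_inside hxy h1 h2 hn).2 h⟩
  · intro w hw w' hw' h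
    simp only [coe_filter, Set.mem_setOf_eq] at hw hw'
    exact triple_inj hw.1 hw'.1 h

theorem card_triples {x y : Fin n} (hxy : x ≠ y) :
    #(((univ : Finset (Fin n)).powersetCard 3).filter (fun s => x ∈ s ∧ y ∈ s)) + 2 = n := by
  rw [triples_eq hxy, card_image_of_injOn triple_inj, card_W hxy]

theorem AddEdge.f_eq {G G' : SimpleGraph (Fin n)} {x y : Fin n} (h : AddEdge G G' x y) :
    f G' + 2 * D G x y + 2 = f G + n := by
  set P := (univ : Finset (Fin n)).powersetCard 3 with hP
  have e1 : f G = #((P.filter (fun s => x ∈ s ∧ y ∈ s)).filter (fun s => Odd (edgesInside G s)))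
      + #((P.filter (fun s => ¬ (x ∈ s ∧ y ∈ s))).filter (fun s => Odd (edgesInside G s))) := by
    unfold f
    rw [← card_filter_add_card_filter_not (s := P.filter (fun s => Odd (edgesInside G s)))
      (fun s => x ∈ s ∧ y ∈ s)]
    congr 2 <;> rw [filter_filter, filter_filter] <;> congr 1 <;> ext s <;> tauto
  have e2 : f G' =
      #((P.filter (fun s => x ∈ s ∧ y ∈ s)).filter (fun s => ¬ Odd (edgesInside G s)))
      + #((P.filter (fun s => ¬ (x ∈ s ∧ y ∈ s))).filter (fun s => Odd (edgesInside G s))) := by
    unfold f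
    rw [← card_filter_add_card_filter_not (s := P.filter (fun s => Odd (edgesInside G' s)))
      (fun s => x ∈ s ∧ y ∈ s)]
    congr 2
    · rw [filter_filter, filter_filter]
      apply filter_congr
      intro s _
      rw [h.inside s]
      by_cases hs : x ∈ s ∧ y ∈ s
      · simp [hs, parity_simps]
      · simp [hs]
    · rw [filter_filter, filter_filter]
      apply filter_congr
      intro s _
      rw [h.inside s]
      by_cases hs : x ∈ s ∧ y ∈ s
      · simp [hs]
      · simp [hs]
  have e3 := card_odd_triples h.ne h.nadj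
  have e4 := card_triples (n := n) h.ne
  have e5 := card_filter_add_card_filter_not (s := P.filter (fun s => x ∈ s ∧ y ∈ s))
    (fun s => Odd (edgesInside G s))
  rw [← hP] at e3 e4
  omega

end Pool.Agent.Work.MP_5df1f6_co
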