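import Mathlib
import Pool.Agent.Work.MP_5df1f6_co.Proof

set_option autoImplicit false

namespace Pool.Agent.Work.MP_5df1f6_co

open Finset Classical

variable {n : ℕ}

/-- Degree. -/
noncomputable def dg (G : SimpleGraph (Fin n)) (v : Fin n) : ℕ := #{w | G.Adj v w}

/-- `e(G)(n-2) - f(G)`. -/
noncomputable def M2 (G : SimpleGraph (Fin n)) : ℤ := #G.edgeFinset * ((n : ℤ) - 2) - f G

theorem AddEdge.M2_eq {G G' : SimpleGraph (Fin n)} {x y : Fin n} (h : AddEdge G G' x y) :
    M2 G' = M2 G + 2 * D G x y := by
  have h1 := h.card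
  have h2 := h.f_eq
  unfold M2
  rw [h1]
  push_cast
  have h2' : (f G' : ℤ) + 2 * D G x y + 2 = f G + n := by exact_mod_cast h2
  linarith

theorem exists_del {G : SimpleGraph (Fin n)} {x y : Fin n} (h : G.Adj x y) :
    ∃ G0, AddEdge G0 G x y := by
  refine ⟨G.deleteEdges {s(x, y)}, h.ne, by simp, ?_⟩
  intro p q
  simp only [SimpleGraph.deleteEdges_adj, Set.mem_singleton_iff, Sym2.eq_iff]
  constructor
  · intro hpq
    by_cases hh : (p = x ∧ q = y) ∨ (p = y ∧ q = x)
    · exact Or.inr hh
    · exact Or.inl ⟨hpq, hh⟩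
  · rintro (⟨h1, _⟩ | ⟨rfl, rfl⟩ | ⟨rfl, rfl⟩)
    · exact h1
    · exact h
    · exact h.symm

theorem M2_of_empty {G : SimpleGraph (Fin n)} (h : #G.edgeFinset = 0) : M2 G = 0 := by
  have hE : G.edgeFinset = ∅ := card_eq_zero.1 h
  have hf : f G = 0 := by
    unfold f
    rw [card_eq_zero, filter_eq_empty_iff]
    intro s _
    unfold edgesInside
    rw [hE]
    simp
  unfold M2
  rw [h, hf]
  simp

theorem incident_card (G : SimpleGraph (Fin n)) (v : Fin n) :
    #(G.edgeFinset.filter fun e => v ∈ e) = dg G v := by
  have : (G.edgeFinset.filter fun e => v ∈ e) =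
      (univ.filter fun w => G.Adj v w).image (fun w => s(v, w)) := by
    ext e
    induction e using Sym2.ind with
    | _ p q =>
      simp only [mem_filter, SimpleGraph.mem_edgeFinset, SimpleGraph.mem_edgeSet, Sym2.mem_iff,
        mem_image, mem_univ, true_and, Sym2.eq_iff]
      constructor
      · rintro ⟨h, rfl | rfl⟩
        · exact ⟨q, h, Or.inl ⟨rfl, rfl⟩⟩
        · exact ⟨p, h.symm, Or.inr ⟨rfl, rfl⟩⟩
      · rintro ⟨w, h, ⟨rfl, rfl⟩ | ⟨rfl, rfl⟩⟩
        · exact ⟨h, Or.inl rfl⟩
        · exact ⟨h.symm, Or.inr rfl⟩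
  rw [this, card_image_of_injective]
  · rfl
  · intro w w' h
    simp only [Sym2.eq_iff] at h
    rcases h with ⟨_, h⟩ | ⟨h1, h2⟩
    · exact h
    · exact h2.trans h1

theorem dg_le (G : SimpleGraph (Fin n)) (v : Fin n) : dg G v ≤ #G.edgeFinset := by
  rw [← incident_card]
  exact card_filter_le _ _

/-- Vertices adjacent to exactly one of two non-adjacent vertices inject into the edges. -/
theorem D_le_edges {G : SimpleGraph (Fin n)} {x y v : Fin n} (hn : ¬ G.Adj x y)
    (hx : x ≠ v) (hy : y ≠ v) : D G x y + dg G v ≤ #G.edgeFinset + 1 := by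
  have h1 : #((univ.filter fun w => Xor (G.Adj x w) (G.Adj y w)).filter fun w => w ≠ v) ≤
      #(G.edgeFinset.filter fun e => ¬ v ∈ e) := by
    apply card_le_card_of_injOn (fun w => if G.Adj x w then s(x, w) else s(y, w))
    · intro w hw
      simp only [coe_filter, mem_filter, mem_univ, true_and, Set.mem_ofPred_eq] at hw ⊢
      by_cases h : G.Adj x w
      · simp [h, Sym2.mem_iff, Ne.symm hx, Ne.symm hw.2]
      · have h' : G.Adj y w := by
          rcases hw.1 with h' | h'
          · exact absurd h'.1 h
          · exact h'.1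
        simp [h, h', Sym2.mem_iff, Ne.symm hy, Ne.symm hw.2]
    · intro w hw w' hw' h
      simp only [coe_filter, mem_filter, mem_univ, true_and, Set.mem_ofPred_eq] at hw hw'
      by_cases h1 : G.Adj x w <;> by_cases h2 : G.Adj x w' <;> simp [h1, h2, Sym2.eq_iff] at h
      · rcases h with h | ⟨h, h'⟩
        · exact h
        · exact h'.trans h
      · have h' : G.Adj y w' := by
          rcases hw'.1 with h' | h'
          · exact absurd h'.1 h2
          · exact h'.1
        rcases h with ⟨h3, h4⟩ | ⟨h3, h4⟩
        · exact h4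
        · rw [h4] at h1
          exact absurd h1 hn
      · have h' : G.Adj y w := by
          rcases hw.1 with h' | h'
          · exact absurd h'.1 h1
          · exact h'.1
        rcases h with ⟨h3, h4⟩ | ⟨h3, h4⟩
        · exact h4
        · rw [← h3] at h2
          exact absurd h2 hn
      · rcases h with h | ⟨h, h'⟩
        · exact h
        · exact h'.trans h
  have h2 := card_filter_add_card_filter_not (s := G.edgeFinset) (fun e => v ∈ e)
  rw [incident_card] at h2
  have h3 := card_filter_add_card_filter_not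
    (s := univ.filter fun w => Xor (G.Adj x w) (G.Adj y w)) (fun w => w ≠ v)
  have h4 : #((univ.filter fun w => Xor (G.Adj x w) (G.Adj y w)).filter fun w => ¬ w ≠ v) ≤ 1 := by
    apply (card_le_card (t := {v}) _).trans (by simp)
    intro w hw
    simp only [mem_filter, not_not] at hw
    simp [hw.2]
  unfold D
  omega

theorem AddEdge.dg_of_ne {G G' : SimpleGraph (Fin n)} {x y v : Fin n} (h : AddEdge G G' x y)
    (hx : x ≠ v) (hy : y ≠ v) : dg G' v = dg G v := by
  unfold dg
  congr 1
  ext w
  simp only [mem_filter, mem_univ, true_and, h.adj]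
  constructor
  · rintro (h | ⟨h, _⟩ | ⟨h, _⟩)
    · exact h
    · exact absurd h.symm hx
    · exact absurd h.symm hy
  · exact Or.inl

theorem AddEdge.dg_left {G G' : SimpleGraph (Fin n)} {x y : Fin n} (h : AddEdge G G' x y) :
    dg G' x = dg G x + 1 := by
  unfold dg
  have : (univ.filter fun w => G'.Adj x w) = insert y (univ.filter fun w => G.Adj x w) := by
    ext w
    simp only [mem_filter, mem_univ, true_and, h.adj, mem_insert]
    have := h.ne
    tauto
  rw [this, card_insert_of_notMem]
  simpa using h.nadj

theorem AddEdge.symm {G G' : SimpleGraph (Fin n)} {x y : Fin n} (h : AddEdge G G' x y) :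
    AddEdge G G' y x :=
  ⟨h.ne.symm, fun hh => h.nadj hh.symm, fun p q => by rw [h.adj]; tauto⟩

theorem AddEdge.dg_right {G G' : SimpleGraph (Fin n)} {x y : Fin n} (h : AddEdge G G' x y) :
    dg G' y = dg G y + 1 := h.symm.dg_left

theorem AddEdge.dg_mono {G G' : SimpleGraph (Fin n)} {x y : Fin n} (h : AddEdge G G' x y)
    (v : Fin n) : dg G v ≤ dg G' v := by
  unfold dg
  apply card_le_card
  intro w hw
  simp only [mem_filter, mem_univ, true_and, h.adj] at hw ⊢
  exact Or.inl hw

theorem D_le_dg (G : SimpleGraph (Fin n)) (x y : Fin n) : D G x y ≤ dg G x + dg G y := by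
  unfold D dg
  refine (card_le_card ?_).trans (card_union_le _ _)
  intro w hw
  simp only [mem_filter, mem_univ, true_and, mem_union] at hw ⊢
  rcases hw with h | h
  · exact Or.inl h.1
  · exact Or.inr h.1

theorem M2_even : ∀ (t : ℕ) (G : SimpleGraph (Fin n)), #G.edgeFinset = t → Even (M2 G) := by
  intro t
  induction t with
  | zero =>
    intro G h
    rw [M2_of_empty h]
    exact Even.zero
  | succ t ih =>
    intro G h
    have hne : G.edgeFinset.Nonempty := by
      rw [← card_pos]; omega
    obtain ⟨e, he⟩ := hne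
    induction e using Sym2.ind with
    | _ x y =>
      have hxy : G.Adj x y := by simpa using he
      obtain ⟨G0, h0⟩ := exists_del hxy
      rw [h0.M2_eq]
      have := h0.card
      exact (ih G0 (by omega)).add (even_two_mul _)

theorem boundA : ∀ (t : ℕ) (G : SimpleGraph (Fin n)), #G.edgeFinset = t → ∀ v,
    (dg G v : ℤ) * (dg G v - 1) ≤ M2 G ∧
    M2 G ≤ (dg G v : ℤ) * (dg G v - 1) + ((t : ℤ) - dg G v + 1) * ((t : ℤ) - dg G v) := by
  intro t
  induction t with
  | zero =>
    intro G h v
    have h1 := dg_le G v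
    have h2 : dg G v = 0 := by omega
    rw [M2_of_empty h, h2]
    simp
  | succ t ih =>
    intro G h v
    by_cases hex : ∃ x y, G.Adj x y ∧ x ≠ v ∧ y ≠ v
    · obtain ⟨x, y, hxy, hx, hy⟩ := hex
      obtain ⟨G0, h0⟩ := exists_del hxy
      have hc := h0.card
      have hc0 : #G0.edgeFinset = t := by omega
      obtain ⟨i1, i2⟩ := ih G0 hc0 v
      have hD := D_le_edges h0.nadj hx hy
      rw [h0.M2_eq, h0.dg_of_ne hx hy]
      rw [hc0] at hD
      have hD' : (D G0 x y : ℤ) + dg G0 v ≤ t + 1 := by exact_mod_cast hD
      have hD0 : (0 : ℤ) ≤ D G0 x y := by positivity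
      push_cast
      constructor
      · linarith
      · nlinarith
    · push Not at hex
      have hall : ∀ e ∈ G.edgeFinset, v ∈ e := by
        intro e he
        induction e using Sym2.ind with
        | _ x y =>
          have hxy : G.Adj x y := by simpa using he
          rw [Sym2.mem_iff]
          by_cases hx : x = v
          · exact Or.inl hx.symm
          · exact Or.inr (hex x y hxy hx).symm
      have hdg : dg G v = t + 1 := by
        rw [← incident_card, filter_true_of_mem hall, h]
      have hne : G.edgeFinset.Nonempty := by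
        rw [← card_pos]; omega
      obtain ⟨e, he⟩ := hne
      have hv := hall e he
      obtain ⟨x, rfl⟩ := hv
      have hvx : G.Adj v x := by simpa using he
      obtain ⟨G0, h0⟩ := exists_del hvx
      have hc := h0.card
      have hc0 : #G0.edgeFinset = t := by omega
      have hd0 := h0.dg_left
      have hD : D G0 v x = dg G0 v := by
        unfold D dg
        congr 1
        ext w
        simp only [mem_filter, mem_univ, true_and]
        constructor
        · rintro (hh | hh)
          · exact hh.1
          · exfalso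
            have hG : G.Adj x w := (h0.adj x w).2 (Or.inl hh.1)
            have hwv := hex x w hG h0.ne.symm
            rw [hwv] at hh
            exact h0.nadj hh.1.symm
        · intro hh
          refine Or.inl ⟨hh, fun hh' => ?_⟩
          have hG : G.Adj x w := (h0.adj x w).2 (Or.inl hh')
          have hwv := hex x w hG h0.ne.symm
          rw [hwv] at hh
          exact G0.irrefl hh
      obtain ⟨i1, i2⟩ := ih G0 hc0 v
      have hd1 : dg G0 v = t := by omega
      rw [hd1] at i1 i2 hD
      rw [h0.M2_eq, hdg, hD]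
      push_cast
      constructor <;> nlinarith

theorem boundB (a : ℕ) (ha : 1 ≤ a) : ∀ (s : ℕ) (G : SimpleGraph (Fin n)),
    #G.edgeFinset = 2 * a - 1 + s → (∀ v, dg G v ≤ a) →
    M2 G ≤ 2 * ((a : ℤ) - 1) * (2 * ((2 * a - 1 + s : ℤ)) - 2 * a + 1) := by
  intro s
  induction s with
  | zero =>
    intro G h hdeg
    have hne : G.edgeFinset.Nonempty := by
      rw [← card_pos]; omega
    obtain ⟨e, he⟩ := hne
    induction e using Sym2.ind with
    | _ x y =>
      have hxy : G.Adj x y := by simpa using he
      have hx : 1 ≤ dg G x := by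
        unfold dg
        rw [Nat.one_le_iff_ne_zero, ← Nat.pos_iff_ne_zero, card_pos]
        exact ⟨y, by simpa using hxy⟩
      have hx' := hdeg x
      obtain ⟨_, i2⟩ := boundA _ G h x
      have hcast : ((2 * a - 1 + 0 : ℕ) : ℤ) = 2 * (a : ℤ) - 1 := by omega
      rw [hcast] at i2
      have hx1 : (1 : ℤ) ≤ dg G x := by exact_mod_cast hx
      have hx2 : (dg G x : ℤ) ≤ a := by exact_mod_cast hx'
      push_cast
      nlinarith [mul_nonneg (sub_nonneg.2 hx1) (sub_nonneg.2 hx2)]
  | succ s ih =>
    intro G h hdeg
    have hne : G.edgeFinset.Nonempty := by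
      rw [← card_pos]; omega
    obtain ⟨e, he⟩ := hne
    induction e using Sym2.ind with
    | _ x y =>
      have hxy : G.Adj x y := by simpa using he
      obtain ⟨G0, h0⟩ := exists_del hxy
      have hc := h0.card
      have hi := ih G0 (by omega) (fun v => (h0.dg_mono v).trans (hdeg v))
      have hD := D_le_dg G0 x y
      have e1 := h0.dg_left
      have e2 := h0.dg_right
      have e3 := hdeg x
      have e4 := hdeg y
      have hD' : D G0 x y ≤ 2 * (a - 1) := by omega
      have hD'' : (D G0 x y : ℤ) ≤ 2 * ((a : ℤ) - 1) := by omega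
      rw [h0.M2_eq]
      push_cast at hi ⊢
      linarith

end Pool.Agent.Work.MP_5df1f6_co
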