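import Mathlib
import Pool.Agent.Work.MP_5df1f6_co.Bounds

set_option autoImplicit false

namespace Pool.Agent.Work.MP_5df1f6_co

open Finset Classical

variable {n : ℕ}

/-- Directed version of the edge relation of the construction. -/
def HE (p q a b s : ℕ) (x y : Fin n) : Prop :=
  (x.val = 0 ∧ 2 ≤ y.val ∧ y.val < 2 + a) ∨ (x.val = 1 ∧ q ≤ y.val ∧ y.val < q + b) ∨
    (∃ i, i < s ∧ x.val = p + 2 * i ∧ y.val = p + 2 * i + 1)

/-- Two stars and a matching. -/
def H (n p q a b s : ℕ) : SimpleGraph (Fin n) := SimpleGraph.fromRel (HE p q a b s)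

theorem card_interval (l u : ℕ) (hu : u ≤ n) :
    #(univ.filter fun w : Fin n => l ≤ w.val ∧ w.val < u) = u - l := by
  rw [← Nat.card_Ico, ← card_image_of_injective _ Fin.val_injective]
  congr 1
  ext k
  simp only [mem_image, mem_filter, mem_univ, true_and, mem_Ico]
  constructor
  · rintro ⟨w, hw, rfl⟩
    exact hw
  · intro hk
    exact ⟨⟨k, by omega⟩, hk, rfl⟩

theorem H_zero (p q : ℕ) : #(H n p q 0 0 0).edgeFinset = 0 := by
  rw [card_eq_zero]
  ext e
  induction e using Sym2.ind with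
  | _ x y =>
    simp only [SimpleGraph.mem_edgeFinset, SimpleGraph.mem_edgeSet, H, SimpleGraph.fromRel_adj, HE]
    simp
    intro _
    constructor <;> intros <;> omega

theorem step1 {p q a : ℕ} (h : 2 + a < n) :
    AddEdge (H n p q a 0 0) (H n p q (a + 1) 0 0) ⟨0, by omega⟩ ⟨2 + a, h⟩ := by
  refine ⟨?_, ?_, ?_⟩
  · intro hh
    have := congrArg Fin.val hh
    simp at this
    omega
  · simp only [H, SimpleGraph.fromRel_adj, HE]
    simp
  · intro x y
    simp only [H, SimpleGraph.fromRel_adj, HE, Fin.ext_iff, ne_eq]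
    simp
    omega

theorem step1D {p q a : ℕ} (h : 2 + a < n) :
    D (H n p q a 0 0) ⟨0, by omega⟩ ⟨2 + a, h⟩ = a := by
  have h2 := card_interval (n := n) 2 (2 + a) (by omega)
  have e : 2 + a - 2 = a := by omega
  rw [e] at h2
  unfold D
  conv_rhs => rw [← h2]
  congr 1
  ext w
  simp only [mem_filter, mem_univ, true_and, H, SimpleGraph.fromRel_adj, HE, Fin.ext_iff, ne_eq,
    Xor]
  simp
  omega

theorem step2 {p q a b : ℕ} (hq : 2 ≤ q) (h : q + b < n) :
    AddEdge (H n p q a b 0) (H n p q a (b + 1) 0) ⟨1, by omega⟩ ⟨q + b, h⟩ := by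
  refine ⟨?_, ?_, ?_⟩
  · intro hh
    have := congrArg Fin.val hh
    simp at this
    omega
  · simp only [H, SimpleGraph.fromRel_adj, HE]
    simp
    omega
  · intro x y
    simp only [H, SimpleGraph.fromRel_adj, HE, Fin.ext_iff, ne_eq]
    simp
    omega

theorem step2D {p q a b : ℕ} (hq : 2 ≤ q) (h : q + b < n) :
    D (H n p q a b 0) ⟨1, by omega⟩ ⟨q + b, h⟩ = b + if q + b < 2 + a then 1 else 0 := by
  have h2 := card_interval (n := n) q (q + b) (by omega)
  have e : q + b - q = b := by omega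
  rw [e] at h2
  unfold D
  split_ifs with hc
  · have : (univ.filter fun w : Fin n => Xor ((H n p q a b 0).Adj ⟨1, by omega⟩ w)
        ((H n p q a b 0).Adj ⟨q + b, h⟩ w)) =
        insert ⟨0, by omega⟩ (univ.filter fun w : Fin n => q ≤ w.val ∧ w.val < q + b) := by
      ext w
      simp only [mem_filter, mem_univ, true_and, H, SimpleGraph.fromRel_adj, HE, Fin.ext_iff, ne_eq,
        Xor, mem_insert]
      simp
      omega
    rw [this, card_insert_of_notMem, h2]
    simp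
    omega
  · rw [add_zero]
    conv_rhs => rw [← h2]
    congr 1
    ext w
    simp only [mem_filter, mem_univ, true_and, H, SimpleGraph.fromRel_adj, HE, Fin.ext_iff, ne_eq,
      Xor]
    simp
    omega

theorem step3 {p q a b s : ℕ} (h1 : 2 + a ≤ p) (h2 : q + b ≤ p)
    (h : p + 2 * s + 1 < n) :
    AddEdge (H n p q a b s) (H n p q a b (s + 1)) ⟨p + 2 * s, by omega⟩ ⟨p + 2 * s + 1, h⟩ := by
  refine ⟨?_, ?_, ?_⟩
  · intro hh
    have := congrArg Fin.val hh
    simp at this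
  · simp only [H, SimpleGraph.fromRel_adj, HE]
    rintro ⟨-, (h | h | ⟨i, h⟩) | (h | h | ⟨i, h⟩)⟩ <;> omega
  · intro x y
    simp only [H, SimpleGraph.fromRel_adj, HE, Fin.ext_iff, ne_eq]
    constructor
    · rintro ⟨h0, (h | h | ⟨i, h⟩) | (h | h | ⟨i, h⟩)⟩
      · exact Or.inl ⟨h0, Or.inl (Or.inl h)⟩
      · exact Or.inl ⟨h0, Or.inl (Or.inr (Or.inl h))⟩
      · by_cases hi : i < s
        · exact Or.inl ⟨h0, Or.inl (Or.inr (Or.inr ⟨i, hi, h.2⟩))⟩
        · have : i = s := by omega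
          subst this
          exact Or.inr (Or.inl h.2)
      · exact Or.inl ⟨h0, Or.inr (Or.inl h)⟩
      · exact Or.inl ⟨h0, Or.inr (Or.inr (Or.inl h))⟩
      · by_cases hi : i < s
        · exact Or.inl ⟨h0, Or.inr (Or.inr (Or.inr ⟨i, hi, h.2⟩))⟩
        · have : i = s := by omega
          subst this
          exact Or.inr (Or.inr ⟨h.2.2, h.2.1⟩)
    · rintro (⟨h0, (h | h | ⟨i, h⟩) | (h | h | ⟨i, h⟩)⟩ | h | h)
      · exact ⟨h0, Or.inl (Or.inl h)⟩
      · exact ⟨h0, Or.inl (Or.inr (Or.inl h))⟩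
      · exact ⟨h0, Or.inl (Or.inr (Or.inr ⟨i, by omega, h.2⟩))⟩
      · exact ⟨h0, Or.inr (Or.inl h)⟩
      · exact ⟨h0, Or.inr (Or.inr (Or.inl h))⟩
      · exact ⟨h0, Or.inr (Or.inr (Or.inr ⟨i, by omega, h.2⟩))⟩
      · exact ⟨by omega, Or.inl (Or.inr (Or.inr ⟨s, by omega, h⟩))⟩
      · exact ⟨by omega, Or.inr (Or.inr (Or.inr ⟨s, by omega, h.2, h.1⟩))⟩

theorem step3D {p q a b s : ℕ} (h1 : 2 + a ≤ p) (h2 : q + b ≤ p)
    (h : p + 2 * s + 1 < n) :
    D (H n p q a b s) ⟨p + 2 * s, by omega⟩ ⟨p + 2 * s + 1, h⟩ = 0 := by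
  unfold D
  rw [card_eq_zero, filter_eq_empty_iff]
  intro w _
  have k1 : ¬ (H n p q a b s).Adj ⟨p + 2 * s, by omega⟩ w := by
    simp only [H, SimpleGraph.fromRel_adj, HE]
    rintro ⟨-, (h | h | ⟨i, h⟩) | (h | h | ⟨i, h⟩)⟩ <;> omega
  have k2 : ¬ (H n p q a b s).Adj ⟨p + 2 * s + 1, h⟩ w := by
    simp only [H, SimpleGraph.fromRel_adj, HE]
    rintro ⟨-, (h | h | ⟨i, h⟩) | (h | h | ⟨i, h⟩)⟩ <;> omega
  rintro (⟨h, _⟩ | ⟨h, _⟩)
  · exact k1 h
  · exact k2 h

theorem H1 (p q : ℕ) : ∀ a : ℕ, 2 + a ≤ n →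
    #(H n p q a 0 0).edgeFinset = a ∧ M2 (H n p q a 0 0) = a * ((a : ℤ) - 1) := by
  intro a
  induction a with
  | zero =>
    intro _
    have := H_zero (n := n) p q
    refine ⟨this, ?_⟩
    rw [M2_of_empty this]
    simp
  | succ a ih =>
    intro h
    obtain ⟨i1, i2⟩ := ih (by omega)
    have hs := step1 (p := p) (q := q) (a := a) (n := n) (by omega)
    refine ⟨by rw [hs.card, i1], ?_⟩
    rw [hs.M2_eq, step1D, i2]
    push_cast
    ring

theorem H2 (p q a : ℕ) (hq : 2 ≤ q) (hqa : q ≤ 2 + a) (ha : 2 + a ≤ n) : ∀ b : ℕ, q + b ≤ n →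
    #(H n p q a b 0).edgeFinset = a + b ∧
    M2 (H n p q a b 0) = a * ((a : ℤ) - 1) + b * ((b : ℤ) - 1) + 2 * (min b (2 + a - q) : ℕ) := by
  intro b
  induction b with
  | zero =>
    intro _
    obtain ⟨i1, i2⟩ := H1 (n := n) p q a ha
    refine ⟨i1, ?_⟩
    rw [i2]
    simp
  | succ b ih =>
    intro h
    obtain ⟨i1, i2⟩ := ih (by omega)
    have hs := step2 (p := p) (q := q) (a := a) (b := b) (n := n) hq (by omega)
    refine ⟨by rw [hs.card, i1]; rfl, ?_⟩
    rw [hs.M2_eq, step2D hq, i2]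
    split_ifs with hc
    · have e1 : min b (2 + a - q) = b := by omega
      have e2 : min (b + 1) (2 + a - q) = b + 1 := by omega
      rw [e1, e2]
      push_cast
      ring
    · have e1 : min b (2 + a - q) = 2 + a - q := by omega
      have e2 : min (b + 1) (2 + a - q) = 2 + a - q := by omega
      rw [e1, e2]
      push_cast
      ring

theorem H3 (p q a b : ℕ) (hq : 2 ≤ q) (hqa : q ≤ 2 + a) (h1 : 2 + a ≤ p) (h2 : q + b ≤ p) :
    ∀ s : ℕ, p + 2 * s ≤ n →
    #(H n p q a b s).edgeFinset = a + b + s ∧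
    M2 (H n p q a b s) = a * ((a : ℤ) - 1) + b * ((b : ℤ) - 1) + 2 * (min b (2 + a - q) : ℕ) := by
  intro s
  induction s with
  | zero =>
    intro h
    exact H2 p q a hq hqa (by omega) b (by omega)
  | succ s ih =>
    intro h
    obtain ⟨i1, i2⟩ := ih (by omega)
    have hs := step3 (p := p) (q := q) (a := a) (b := b) (s := s) (n := n) h1 h2 (by omega)
    refine ⟨by rw [hs.card, i1]; rfl, ?_⟩
    rw [hs.M2_eq, step3D h1 h2, i2]
    simp

/-- Realization of `a(a-1) + b(b-1) + 2c` with `t` edges. -/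
theorem realize (t a b c : ℕ) (hab : a + b ≤ t) (hca : c ≤ a) (hcb : c ≤ b) (hn : 2 * t + 2 ≤ n) :
    ∃ G : SimpleGraph (Fin n), #G.edgeFinset = t ∧
      M2 G = a * ((a : ℤ) - 1) + b * ((b : ℤ) - 1) + 2 * c := by
  obtain ⟨i1, i2⟩ := H3 (n := n) (2 + a + b - c) (2 + a - c) a b (by omega) (by omega) (by omega)
    (by omega) (t - a - b) (by omega)
  refine ⟨_, by rw [i1]; omega, ?_⟩
  rw [i2]
  have : min b (2 + a - (2 + a - c)) = c := by omega
  rw [this]

end Pool.Agent.Work.MP_5df1f6_co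

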