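import Mathlib
import Pool.Agent.Work.MP_5df1f6_co.Construct

set_option autoImplicit false

namespace Pool.Agent.Work.MP_5df1f6_co

open Finset Classical

variable {n : ℕ}

theorem ineq_aux (j : ℤ) (hj : 0 ≤ j) (t : ℤ) (ht : j * j + 5 * j + 8 ≤ 2 * t) :
    0 ≤ t * t - (6 * j + 3) * t + 6 * j * j + 8 * j + 4 := by
  have key : 0 ≤ (j - 2) * (j * j * j - j - 16) := by
    rcases lt_or_ge j 3 with h | h
    · interval_cases j <;> norm_num
    · have h1 : 0 ≤ j - 2 := by linarith
      have h2 : 0 ≤ j * j * j - j - 16 := by nlinarith [mul_nonneg hj hj]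
      exact mul_nonneg h1 h2
  obtain ⟨s, hs⟩ : ∃ s, s = 2 * t - (j * j + 5 * j + 8) := ⟨_, rfl⟩
  have hs0 : 0 ≤ s := by linarith
  have e : 4 * (t * t - (6 * j + 3) * t + 6 * j * j + 8 * j + 4) =
      (j - 2) * (j * j * j - j - 16) + s * (2 * (j * j - j + 5)) + s * s := by
    have : 2 * t = s + (j * j + 5 * j + 8) := by linarith
    have h4 : 4 * (t * t - (6 * j + 3) * t + 6 * j * j + 8 * j + 4) =
      (2 * t) * (2 * t) - 2 * (6 * j + 3) * (2 * t) + 24 * j * j + 32 * j + 16 := by ring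
    rw [h4, this]
    ring
  have h5 : 0 ≤ j * j - j + 5 := by nlinarith [sq_nonneg (j - 1)]
  nlinarith [mul_nonneg hs0 h5, mul_nonneg hs0 hs0]

/-- No graph with `t` edges has `M2` in a gap. -/
theorem gap {t : ℕ} {j : ℤ} (hj : 0 ≤ j) (G : SimpleGraph (Fin n)) (hG : #G.edgeFinset = t)
    (h1 : ((t : ℤ) - j - 1) * (t - j - 2) + (j + 1) * (j + 2) < M2 G)
    (h2 : M2 G < ((t : ℤ) - j) * (t - j - 1)) (htj : j + 3 ≤ t) : False := by
  have hev := M2_even t G hG
  have ev1 : Even (((t : ℤ) - j - 1) * (t - j - 2) + (j + 1) * (j + 2)) := by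
    have e1 : Even (((t : ℤ) - j - 1) * (t - j - 2)) := by
      have := Int.even_mul_pred_self ((t : ℤ) - j - 1)
      have e : (t : ℤ) - j - 1 - 1 = t - j - 2 := by ring
      rwa [e] at this
    have e2 : Even ((j + 1) * (j + 2)) := by
      have := Int.even_mul_succ_self (j + 1)
      have e : j + 1 + 1 = j + 2 := by ring
      rwa [e] at this
    exact e1.add e2
  have ev2 : Even (((t : ℤ) - j) * (t - j - 1)) := Int.even_mul_pred_self _
  obtain ⟨m, hm⟩ := hev
  obtain ⟨u, hu⟩ := ev1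
  obtain ⟨v, hv⟩ := ev2
  have h3 : ((t : ℤ) - j - 1) * (t - j - 2) + (j + 1) * (j + 2) + 4 ≤
      ((t : ℤ) - j) * (t - j - 1) := by
    rw [hu, hv]
    rw [hu] at h1
    rw [hv] at h2
    omega
  have ht8 : j * j + 5 * j + 8 ≤ 2 * t := by nlinarith
  -- maximum degree
  have hne : G.edgeFinset.Nonempty := by
    rw [← card_pos]; omega
  obtain ⟨e, he⟩ := hne
  induction e using Sym2.ind with
  | _ x y =>
    have hxy : G.Adj x y := by simpa using he
    obtain ⟨v, -, hv⟩ := exists_max_image univ (fun v => dg G v) ⟨x, mem_univ x⟩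
    have hx : 1 ≤ dg G x := by
      unfold dg
      rw [Nat.one_le_iff_ne_zero, ← Nat.pos_iff_ne_zero, card_pos]
      exact ⟨y, by simpa using hxy⟩
    have ha1 : 1 ≤ dg G v := hx.trans (hv x (mem_univ x))
    obtain ⟨i1, i2⟩ := boundA t G hG v
    have hat := dg_le G v
    rw [hG] at hat
    have hB := boundB (n := n) (dg G v) ha1
    have hvv : ∀ w, dg G w ≤ dg G v := fun w => hv w (mem_univ w)
    generalize hd : dg G v = d at *
    have ha1' : (1 : ℤ) ≤ d := by exact_mod_cast ha1
    have hlt : (d : ℤ) < t - j := by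
      by_contra hcon
      push Not at hcon
      have : ((t : ℤ) - j) * (t - j - 1) ≤ d * (d - 1) := by nlinarith
      linarith
    rcases le_or_gt (d : ℤ) (j + 1) with hdj | hdj
    · have hs := hB (t - (2 * d - 1)) G (by
        have : 2 * d - 1 ≤ t := by
          have h : (2 * (d : ℤ) - 1) ≤ t := by nlinarith
          omega
        omega) hvv
      have hc : (((t - (2 * d - 1) : ℕ)) : ℤ) = t - (2 * d - 1) := by
        have h : (2 * (d : ℤ) - 1) ≤ t := by nlinarith
        omega
      rw [hc] at hs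
      have hs' : M2 G ≤ 2 * ((d : ℤ) - 1) * (2 * t - 2 * d + 1) := by
        have e : 2 * ((d : ℤ) - 1) * (2 * (2 * d - 1 + ((t : ℤ) - (2 * d - 1))) - 2 * d + 1) =
          2 * ((d : ℤ) - 1) * (2 * t - 2 * d + 1) := by ring
        linarith
      have hmono : 2 * ((d : ℤ) - 1) * (2 * t - 2 * d + 1) ≤ 2 * j * (2 * t - 2 * j - 1) := by
        nlinarith
      have haux := ineq_aux j hj t ht8
      nlinarith
    · have hconv : (d : ℤ) * (d - 1) + ((t : ℤ) - d + 1) * ((t : ℤ) - d) ≤
          ((t : ℤ) - j - 1) * (t - j - 2) + (j + 1) * (j + 2) := by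
        nlinarith [mul_nonneg (show (0 : ℤ) ≤ t - j - 1 - d by linarith)
          (show (0 : ℤ) ≤ d - j - 2 by linarith)]
      linarith

theorem exists_tri (r : ℕ) : ∃ b c : ℕ, r = b * (b - 1) / 2 + c ∧ c ≤ b ∧ (b = 0 ∨ 1 ≤ c) := by
  induction r with
  | zero => exact ⟨0, 0, by simp, le_refl _, Or.inl rfl⟩
  | succ r ih =>
    obtain ⟨b, c, h1, h2, h3⟩ := ih
    rcases Nat.lt_or_ge c b with h | h
    · exact ⟨b, c + 1, by omega, h, Or.inr (by omega)⟩
    · refine ⟨b + 1, 1, ?_, by omega, Or.inr (le_refl _)⟩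
      have hcb : c = b := le_antisymm h2 h
      subst hcb
      have : (c + 1) * (c + 1 - 1) / 2 = c * (c - 1) / 2 + c := by
        rcases Nat.eq_zero_or_pos c with rfl | hc
        · rfl
        · have e : (c + 1) * (c + 1 - 1) = c * (c - 1) + 2 * c := by
            obtain ⟨k, rfl⟩ : ∃ k, c = k + 1 := ⟨c - 1, by omega⟩
            simp
            ring
          rw [e]
          omega
      omega

theorem two_tri (b : ℕ) : 2 * (b * (b - 1) / 2) = b * (b - 1) := by
  have : 2 ∣ b * (b - 1) := (Nat.even_mul_pred_self b).two_dvd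
  omega

theorem exists_tri' (m : ℕ) : ∃ a r : ℕ, 1 ≤ a ∧ r < a ∧ 2 * (m : ℤ) = a * ((a : ℤ) - 1) + 2 * r := by
  obtain ⟨b, c, h1, h2, h3⟩ := exists_tri m
  have h4 := two_tri b
  have h5 : 2 * m = b * (b - 1) + 2 * c := by omega
  have h6 : 2 * (m : ℤ) = b * ((b : ℤ) - 1) + 2 * c := by
    rcases Nat.eq_zero_or_pos b with rfl | hb
    · simp at h5 ⊢
      omega
    · have : ((b - 1 : ℕ) : ℤ) = (b : ℤ) - 1 := by omega
      rw [← this]
      exact_mod_cast h5
  rcases Nat.lt_or_ge c b with h | h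
  · exact ⟨b, c, by omega, h, h6⟩
  · have hcb : c = b := le_antisymm h2 h
    refine ⟨b + 1, 0, by omega, by omega, ?_⟩
    rw [h6, hcb]
    push_cast
    ring

theorem exists_of_not_gap (t : ℕ) (hn : 2 * t + 2 ≤ n) (m : ℕ)
    (hm : 2 * (m : ℤ) ≤ t * ((t : ℤ) - 1))
    (hgap : ∀ j : ℤ, 0 ≤ j → j + 3 ≤ t →
      ((t : ℤ) - j - 1) * (t - j - 2) + (j + 1) * (j + 2) < 2 * m →
      2 * (m : ℤ) < ((t : ℤ) - j) * (t - j - 1) → False) :
    ∃ G : SimpleGraph (Fin n), #G.edgeFinset = t ∧ M2 G = 2 * m := by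
  rcases Nat.eq_zero_or_pos t with rfl | ht
  · obtain ⟨G, h1, h2⟩ := realize (n := n) 0 0 0 0 (by omega) (by omega) (by omega) (by omega)
    refine ⟨G, h1, ?_⟩
    have : m = 0 := by
      simp at hm
      omega
    rw [h2, this]
    simp
  · obtain ⟨a, r, ha, hr, hmr⟩ := exists_tri' m
    have hat : a ≤ t := by
      by_contra hcon
      push Not at hcon
      have h1 : (t : ℤ) + 1 ≤ a := by exact_mod_cast hcon
      have h2 : (1 : ℤ) ≤ t := by exact_mod_cast ht
      have h3 : (0 : ℤ) ≤ r := by positivity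
      nlinarith
    have hat' : (a : ℤ) ≤ t := by exact_mod_cast hat
    have har : (r : ℤ) + 1 ≤ a := by exact_mod_cast hr
    by_cases hcase : 2 * (r : ℤ) ≤ ((t : ℤ) - a + 1) * (t - a)
    · obtain ⟨b, c, h1, h2, h3⟩ := exists_tri r
      have h4 := two_tri b
      have h5 : 2 * r = b * (b - 1) + 2 * c := by omega
      have h6 : 2 * (r : ℤ) = b * ((b : ℤ) - 1) + 2 * c := by
        rcases Nat.eq_zero_or_pos b with rfl | hb
        · simp at h5 ⊢
          omega
        · have : ((b - 1 : ℕ) : ℤ) = (b : ℤ) - 1 := by omega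
          rw [← this]
          exact_mod_cast h5
      have hb : a + b ≤ t := by
        by_contra hcon
        push Not at hcon
        have k1 : (t : ℤ) + 1 ≤ a + b := by exact_mod_cast hcon
        have k2 : 1 ≤ b := by omega
        have k3 : 1 ≤ c := by
          rcases h3 with h3 | h3
          · omega
          · exact h3
        have k4 : (1 : ℤ) ≤ c := by exact_mod_cast k3
        nlinarith
      obtain ⟨G, g1, g2⟩ := realize (n := n) t a b c hb (by omega) h2 hn
      refine ⟨G, g1, ?_⟩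
      rw [g2, hmr, h6]
      ring
    · push Not at hcase
      exfalso
      have hlt : a < t := by
        rcases Nat.lt_or_ge a t with h | h
        · exact h
        · exfalso
          have : a = t := le_antisymm hat h
          subst this
          linarith
      have hlt' : (a : ℤ) + 1 ≤ t := by exact_mod_cast hlt
      apply hgap (t - a - 1) (by linarith)
      · nlinarith
      · have e : ((t : ℤ) - (t - a - 1) - 1) * (t - (t - a - 1) - 2) +
            ((t - a - 1) + 1) * ((t - a - 1) + 2) = a * (a - 1) + (t - a + 1) * (t - a) := by ring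
        rw [e, hmr]
        linarith
      · have e : ((t : ℤ) - (t - a - 1)) * (t - (t - a - 1) - 1) = (a + 1) * a := by ring
        rw [e, hmr]
        nlinarith

theorem M2_bounds {t : ℕ} (G : SimpleGraph (Fin n)) (hG : #G.edgeFinset = t) :
    0 ≤ M2 G ∧ M2 G ≤ t * ((t : ℤ) - 1) := by
  rcases Nat.eq_zero_or_pos t with rfl | ht
  · rw [M2_of_empty hG]; simp
  · have hne : G.edgeFinset.Nonempty := by
      rw [← card_pos]; omega
    obtain ⟨e, he⟩ := hne
    induction e using Sym2.ind with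
    | _ x y =>
      have hxy : G.Adj x y := by simpa using he
      have hx : 1 ≤ dg G x := by
        unfold dg
        rw [Nat.one_le_iff_ne_zero, ← Nat.pos_iff_ne_zero, card_pos]
        exact ⟨y, by simpa using hxy⟩
      obtain ⟨i1, i2⟩ := boundA t G hG x
      have hat := dg_le G x
      rw [hG] at hat
      have h1 : (1 : ℤ) ≤ dg G x := by exact_mod_cast hx
      have h2 : (dg G x : ℤ) ≤ t := by exact_mod_cast hat
      constructor
      · nlinarith
      · nlinarith [mul_nonneg (sub_nonneg.2 h1) (sub_nonneg.2 h2)]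

theorem tmax_spec {n t : ℕ} (hn : 3 ≤ n) (ht : t ≤ tmax n) : t * (t + 1) < n - 2 := by
  have h0 : 0 * (0 + 1) < n - 2 := by omega
  have h1 : tmax n * (tmax n + 1) < n - 2 :=
    Nat.findGreatest_spec (P := fun t => t * (t + 1) < n - 2) (Nat.zero_le n) h0
  have h2 : t * (t + 1) ≤ tmax n * (tmax n + 1) := Nat.mul_le_mul ht (by omega)
  omega

theorem main (n : ℕ) (hn : 3 ≤ n) (t : ℕ) (ht : t ≤ tmax n) :
    {x : ℤ | a n t ≤ x ∧ x ≤ b n t ∧ x ∉ S n t} =
      {x : ℤ | a n t ≤ x ∧ x ≤ b n t ∧ (Odd (x - a n t) ∨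
        ∃ j : ℤ, 0 ≤ j ∧ a n t + j * (2 * t - j - 1) < x ∧ x < a n t + 2 * (j + 1) * (t - j - 2))} := by
  have hspec := tmax_spec hn ht
  have hn2 : 2 * t + 2 ≤ n := by
    rcases Nat.eq_zero_or_pos t with h0 | h0
    · omega
    · have h1 : t * 2 ≤ t * (t + 1) := Nat.mul_le_mul le_rfl (by omega)
      omega
  have hM : ∀ G : SimpleGraph (Fin n), #G.edgeFinset = t →
      M2 G = t * ((n : ℤ) - 2) - f G := by
    intro G hG
    unfold M2
    rw [hG]
  ext x
  simp only [Set.mem_setOf_eq]
  constructor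
  · rintro ⟨hx1, hx2, hx3⟩
    refine ⟨hx1, hx2, ?_⟩
    by_contra hcon
    push Not at hcon
    obtain ⟨hodd, hj⟩ := hcon
    apply hx3
    have hev : Even (x - a n t) := by simpa using hodd
    obtain ⟨u, hu⟩ := hev
    have evt : Even ((t : ℤ) * ((t : ℤ) - 1)) := Int.even_mul_pred_self _
    obtain ⟨v, hv⟩ := evt
    have e1 : t * ((n : ℤ) - 2) - x = 2 * (v - u) := by
      unfold a at hu
      linarith
    have hb' : 0 ≤ v - u := by
      unfold b at hx2
      linarith
    obtain ⟨m, hm⟩ := Int.eq_ofNat_of_zero_le hb'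
    obtain ⟨G, g1, g2⟩ := exists_of_not_gap (n := n) t hn2 m (by
      rw [← hm, hv]
      unfold a at hx1 hu
      linarith) (by
      intro j hj0 hj3 hj1 hj2
      have := hj j hj0 (by
        rw [← hm] at hj2
        unfold a at hu ⊢
        linarith)
      rw [← hm] at hj1
      unfold a at hu this
      linarith)
    refine ⟨G, g1, ?_⟩
    have := hM G g1
    rw [g2, ← hm] at this
    linarith
  · rintro ⟨hx1, hx2, hx3⟩
    refine ⟨hx1, hx2, ?_⟩
    rintro ⟨G, hG, hf⟩
    have hMG := hM G hG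
    rw [hf] at hMG
    rcases hx3 with hodd | ⟨j, hj0, hj1, hj2⟩
    · have hev := M2_even t G hG
      have evt : Even ((t : ℤ) * ((t : ℤ) - 1)) := Int.even_mul_pred_self _
      have e : x - a n t = t * ((t : ℤ) - 1) - M2 G := by
        rw [hMG]; unfold a; ring
      rw [e] at hodd
      exact (Int.not_even_iff_odd.2 hodd) (evt.sub hev)
    · have htj : j + 3 ≤ t := by
        by_contra hcon
        push Not at hcon
        have h1 : (t : ℤ) - j - 2 ≤ 0 := by linarith
        have h2 : 2 * (j + 1) * ((t : ℤ) - j - 2) ≤ 0 :=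
          mul_nonpos_of_nonneg_of_nonpos (by linarith) h1
        linarith
      apply gap hj0 G hG _ _ htj
      · rw [hMG]; unfold a at hj2; linarith
      · rw [hMG]; unfold a at hj1; linarith

end Pool.Agent.Work.MP_5df1f6_co
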